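import Mathlib

/-!
# MP_bdec1e_ag: closed subsets of small minimal log discrepancy, log canonical pairs

`X` is a normal quasi-projective variety of dimension `n` over a field of characteristic zero. The
fields of `Over` are definitions, formal facts and published theorems about the birational geometry
over `X`; the names are in the comments. All divisors have real coefficients. An element of
`Val →₀ ℝ` is a finite combination of prime divisors over `X`; on a model `Y` it stands for the
divisor of `Y` which is the sum of those of its terms whose prime divisor lies on `Y`. So the same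
element stands for a divisor on `Y` and for its strict transform on another model.
-/

namespace Pool.Agent.Results.MP_bdec1e_ag.LcPairs

/-- The birational geometry over `X`. -/
structure Over (n : ℕ) where
  /-- the irreducible closed subvarieties of `X` different from `X` -/
  Sub : Type
  /-- inclusion -/
  le : Sub → Sub → Prop
  le_trans : ∀ W W' W'', le W W' → le W' W'' → le W W''
  /-- the codimension in `X` -/
  codim : Sub → ℕ
  codim_le : ∀ W, codim W ≤ n
  /-- the prime divisors over `X` -/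
  Val : Type
  /-- the centre on `X` -/
  cen : Val → Sub
  /-- the centre has codimension one: `G` is a prime divisor of `X` -/
  div : Val → Prop
  /-- the local ring of `X` at the generic point of a prime divisor is a discrete valuation ring -/
  div_inj : ∀ G G', div G → cen G' = cen G → G' = G
  /-- the effective divisors `Θ` on `X` such that `K_X + Θ` is `ℝ`-Cartier -/
  B : Type
  /-- the log discrepancy `1 + a(G, X, Θ)` -/
  ld : B → Val → ℝ
  /-- `Θ` is effective; its coefficient along `G` is `1 - ld Θ G` -/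
  ld_div : ∀ Θ G, div G → ld Θ G ≤ 1
  /-- every `W` is the centre of some `G`, and if `(X, Θ)` is log canonical then the infimum of the log
  discrepancies of the `G` with centre `W` is attained (log resolution) -/
  attained : ∀ Θ, (∀ G, 0 ≤ ld Θ G) → ∀ W, ∃ G, cen G = W ∧ ∀ G', cen G' = W → ld Θ G ≤ ld Θ G'
  /-- the open subsets of `X` -/
  Opn : Type
  /-- `U` meets `W`, that is, contains the generic point of `W` -/
  meets : Opn → Sub → Prop
  /-- the effective divisors `Δ` on `U` such that `K_U + Δ` is `ℝ`-Cartier -/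
  LB : Opn → Type
  /-- the log discrepancy of a prime divisor over `X` whose centre meets `U` for a pair `(U, Δ)` -/
  lld : ∀ U, LB U → Val → ℝ
  /-- the restriction of a pair to `U` -/
  res : ∀ U, B → LB U
  lld_res : ∀ U Δ G, meets U (cen G) → lld U (res U Δ) G = ld Δ G
  /-- the divisor on `U` is `ℝ`-Cartier; here an element of `Val →₀ ℝ` stands for the sum of those of
  its terms which are divisors of `X` -/
  Cart : Opn → (Val →₀ ℝ) → Prop
  /-- `K_U` is `ℝ`-Cartier -/
  KCart : Opn → Prop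
  /-- `K_X + Δ` is `ℝ`-Cartier; so if `K_U` is `ℝ`-Cartier then the restriction of `Δ` to `U` is
  `ℝ`-Cartier -/
  kcart : ∀ U Δ, KCart U → ∃ P, (∀ G, div G → P G = 1 - ld Δ G) ∧ Cart U P
  /-- the `ℚ`-factorial normal varieties `Y` with a projective birational morphism to `X` -/
  M : Type
  /-- `G` is a prime divisor of `Y` -/
  on : M → Val → Prop
  /-- the log discrepancy `1 + a(G, Y, 0)` -/
  kd : M → Val → ℝ
  /-- the multiplicity of the pull back of the divisor `C` of `Y` along `G` -/
  ord : M → Val → (Val →₀ ℝ) →ₗ[ℝ] ℝ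
  kd_on : ∀ Y G, on Y G → kd Y G = 1
  ord_on : ∀ Y G C, on Y G → ord Y G C = C G
  ord_nonneg : ∀ Y G C, (∀ H, on Y H → 0 ≤ C H) → 0 ≤ ord Y G C
  /-- if the multiplicity along `G` is not zero then the centre of `G` on `Y` is contained in a
  component of `C` -/
  ord_centre : ∀ Y G C, ord Y G C ≠ 0 → ∃ H, on Y H ∧ C H ≠ 0 ∧ le (cen G) (cen H)
  /-- divisors of `Y` modulo `ℝ`-linear equivalence over `X` -/
  N : M → Type
  [grp : ∀ Y, AddCommGroup (N Y)]
  [mod : ∀ Y, Module ℝ (N Y)]
  /-- the canonical class -/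
  K : ∀ Y, N Y
  /-- the class of a divisor -/
  cl : ∀ Y, (Val →₀ ℝ) →ₗ[ℝ] N Y
  /-- `(Y, C)` is a divisorial log terminal pair, `C` effective -/
  Dlt : M → (Val →₀ ℝ) → Prop
  /-- then the `ℚ`-factorial variety `Y` is Kawamata log terminal (Kollár, Mori, 2.43) -/
  dlt_klt : ∀ Y C, Dlt Y C → ∀ G, 0 < kd Y G
  /-- A small change of the coefficients which are different from `0` and `1`: the divisors with
  coefficients less than one contain no log canonical centre of a dlt pair, and the log canonical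
  centres of a dlt pair are the strata of the components with coefficient one (Kollár, Mori, 2.3;
  Fujino). -/
  perturb : ∀ Y C D, Dlt Y C → (∀ G, D G ≠ 0 → 0 < C G ∧ C G < 1) → ∃ e : ℝ, 0 < e ∧
    ∀ t : ℝ, 0 < t → t < e → Dlt Y (C + t • D) ∧
      ∀ G, kd Y G - ord Y G (C + t • D) = 0 → kd Y G - ord Y G C = 0
  /-- Hacon, Fujino (dlt modifications); Birkar, Cascini, Hacon and McKernan (extraction of finitely
  many divisors with log discrepancy less than one over a klt pair, and so over a `ℚ`-factorial dlt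
  modification): there is a `ℚ`-factorial model on which the given divisors lie, and a divisor `C` on it
  such that `(Y, C)` is dlt and `K_Y + C` is the pull back of `K_X + Δ`; the other exceptional divisors
  of `Y` have log discrepancy zero. -/
  model : ∀ Δ, (∀ G, 0 ≤ ld Δ G) → ∀ S : Finset Val, (∀ G ∈ S, ld Δ G < 1) →
    ∃ (Y : M) (C : Val →₀ ℝ), Dlt Y C ∧ K Y + cl Y C = 0 ∧ (∀ G, C G ≠ 0 → on Y G) ∧
      (∀ G, 0 ≤ C G) ∧ (∀ G ∈ S, on Y G) ∧ (∀ G, on Y G → div G ∨ G ∈ S ∨ C G = 1) ∧
      ∀ G, ld Δ G = kd Y G - ord Y G C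
  /-- the number `lcg(n)` -/
  lcg : ℝ
  lcg_pos : 0 < lcg
  lcg_le : lcg ≤ 1
  /-- the definition of `lcg(n)`; that it is positive is a theorem of Hacon, McKernan and Xu -/
  gap : ∀ Y (R : Val →₀ ℝ) (d : ℝ), (∀ G, R G = 0 ∨ R G = 1) → 1 - lcg < d →
    (∀ G, 0 ≤ kd Y G - ord Y G (d • R)) → ∀ G, 0 ≤ kd Y G - ord Y G R
  /-- the classes which are trivial over `U`: the restriction to the inverse image of `U` is
  `ℝ`-linearly equivalent to zero over `U` -/
  loc : ∀ Y, Opn → Submodule ℝ (N Y)
  /-- the divisor `C` on `Y` for which `K_Y + C` is over `U` the pull back of `K_U + Δ`; the components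
  of `C` which do not meet the inverse image of `U` are left out, and the components which are not
  exceptional are the components of `Δ` -/
  pull : ∀ Y U (Δ : LB U), ∃ C, K Y + cl Y C ∈ loc Y U ∧ (∀ G, div G → 0 ≤ C G) ∧
    ∀ G, meets U (cen G) → kd Y G - ord Y G C = lld U Δ G
  /-- the pull back to `Y` of an effective `ℝ`-Cartier divisor `P` on `U`: it is trivial over `U` and
  effective, and the components which are not exceptional are the components of `P` -/
  pullCart : ∀ Y U P, Cart U P → (∀ G, div G → meets U (cen G) → 0 ≤ P G) →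
    ∃ P', cl Y P' ∈ loc Y U ∧ (∀ G, div G → meets U (cen G) → P' G = P G) ∧
      ∀ G, on Y G → meets U (cen G) → 0 ≤ P' G
  /-- over `U`, the pair `(Y, C)` has a good minimal model: a minimal model `Y'`, a `ℚ`-factorial variety
  which is the result of a birational contraction of the inverse image of `U` in `Y`, with
  `K_(Y') + C'` semiample over `U` -/
  Good : M → (Val →₀ ℝ) → Opn → Prop
  /-- Birkar, Cascini, Hacon and McKernan. If `(Y, C')` is klt over `U`, `C'` effective and `K_Y + C'`
  is trivial over `U` then `K_Y + C`, which is big over `U` because `Y → X` is birational, is over `U`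
  equivalent to an effective divisor `D`; `(Y, C' + ε D)` is klt, and its log canonical class `ε D` is
  big. -/
  bchm : ∀ Y C U, Dlt Y C → (∃ C', K Y + cl Y C' ∈ loc Y U ∧
    (∀ G, on Y G → meets U (cen G) → 0 ≤ C' G) ∧
    ∀ G, meets U (cen G) → 0 < kd Y G - ord Y G C') → Good Y C U
  /-- Birkar (Existence of log canonical flips and a special LMMP, Theorem 1.1), Hacon and Xu (Existence
  of log canonical closures, Theorem 1.6); for real coefficients: Hashizume (Remarks on special kinds
  of the relative log minimal model program). If `(Y, B + A)` is log canonical over `U`, `B` and `A`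
  effective, and `K_Y + B + A` is trivial over `U` then `(Y, B)` has a good minimal model over `U` (a
  Mori fibre space is impossible because `Y → X` is birational). So has every dlt pair whose log
  canonical class over `U` is a positive multiple of `K_Y + B` (the ample model is the same; Birkar,
  Theorems 1.8 and 1.9). -/
  birkar : ∀ Y U B A C (c : ℝ), Dlt Y C →
    (∀ G, on Y G → meets U (cen G) → 0 ≤ B G ∧ 0 ≤ A G) →
    (∀ G, meets U (cen G) → 0 ≤ kd Y G - ord Y G (B + A)) → K Y + cl Y (B + A) ∈ loc Y U →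
    0 < c → (K Y + cl Y B) - c • (K Y + cl Y C) ∈ loc Y U → Good Y C U
  /-- Codimension at most four. A neighbourhood of the generic point of `W` is generically finite over
  a variety of dimension `n - codim W`, with `W` finite over it; over its generic point `X` has
  dimension `codim W ≤ 4`, and a good minimal model there is defined over an open subset. In dimension
  at most four a dlt pair with `K_Y + C` big has a minimal model (Shokurov, Birkar), `K_Y + C` is
  abundant on the log canonical centres of the minimal model, of dimension at most three (Keel,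
  Matsuki and McKernan), and so semiample (Fujino; Fujino and Gongyo; Hashizume and Hu). -/
  low : ∀ Y C W, Dlt Y C → codim W ≤ 4 → ∃ U, meets U W ∧ Good Y C U
  /-- semiample over `X` -/
  Semi : ∀ Y, N Y → Prop
  semi_smul : ∀ Y D (c : ℝ), 0 < c → Semi Y D → Semi Y (c • D)
  /-- Hacon and Xu (Existence of log canonical closures, Theorem 1.1; for real coefficients: Hashizume,
  Remarks on special kinds of the relative log minimal model program). If a dlt pair has a good minimal
  model over an open subset of `X` which meets the images of all its log canonical centres then it has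
  a good minimal model over `X`. (The ample models over the members of an open covering glue.) The
  function `F` is the multiplicity of the difference of the pull backs of `K_Y + C` and of
  `K_(Y') + C'`; this difference is effective, and it is positive on the divisors contracted by
  `Y ⇢ Y'`. If `K_Y + D` is equivalent to `c (K_Y + C)` then the difference of the pull backs of
  `K_Y + D` and of `K_(Y') + D'` is `c` times the same divisor. -/
  hacon_xu : ∀ Y C, Dlt Y C →
    (∀ W, (∃ G, cen G = W ∧ kd Y G - ord Y G C = 0) → ∃ U, meets U W ∧ Good Y C U) →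
    ∃ (Y' : M) (F : Val → ℝ), Dlt Y' C ∧ (∀ G, on Y' G → on Y G) ∧ (∀ G, 0 ≤ F G) ∧
      (∀ G, on Y G → ¬ on Y' G → 0 < F G) ∧ Semi Y' (K Y' + cl Y' C) ∧
      ∀ (c : ℝ) (D : Val →₀ ℝ), K Y + cl Y D = c • (K Y + cl Y C) →
        K Y' + cl Y' D = c • (K Y' + cl Y' C) ∧
        ∀ G, kd Y' G - ord Y' G D = kd Y G - ord Y G D + c * F G
  /-- Bertini. `(Y, R)` is log canonical, `R` a sum of prime divisors, `-(K_Y + R)` semiample over `X`.
  `X` is quasi-projective: take a general effective divisor `B'` equivalent to `-(K_Y + R) + g^* H`, `H`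
  sufficiently ample on `X`, with small coefficients, and `Θ = g_*(R + B')`. Then `K_Y + R + B'` is the
  pull back of `K_X + Θ`, and `B'` contains no log canonical centre. -/
  bertini : ∀ Y (R : Val →₀ ℝ), (∀ G, R G = 0 ∨ R G = 1) → (∀ G, 0 ≤ kd Y G - ord Y G R) →
    Semi Y (-(K Y + cl Y R)) →
    ∃ Θ : B, ∀ G, 0 ≤ ld Θ G ∧ (ld Θ G = 0 → kd Y G - ord Y G R = 0) ∧
      (kd Y G - ord Y G R = 0 → ld Θ G = 0)

attribute [instance] Over.grp Over.mod

namespace Over

variable {n : ℕ} (X : Over n)

/-- `(X, Θ)` is log canonical -/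
def Lc (Θ : X.B) : Prop := ∀ G, 0 ≤ X.ld Θ G

/-- the minimal log discrepancy `mld(W, X, Θ)` -/
noncomputable def mld (W : X.Sub) (Θ : X.B) : ℝ := sInf {x | ∃ G, X.cen G = W ∧ X.ld Θ G = x}

/-- `W` is a log canonical centre of `(X, Θ)` -/
def Centre (Θ : X.B) (W : X.Sub) : Prop := X.mld W Θ = 0

/-- `X` is potentially klt at the generic point of `W`: some pair `(U, Δ)` is klt, `U` an open subset
which contains the generic point of `W`, `Δ` effective -/
def PotKlt (W : X.Sub) : Prop := ∃ U, X.meets U W ∧ ∃ Δ : X.LB U,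
  ∀ G, X.meets U (X.cen G) → 0 < X.lld U Δ G

/-- `K_X` is `ℝ`-Cartier at the generic point of `W` -/
def KCartAt (W : X.Sub) : Prop := ∃ U, X.meets U W ∧ X.KCart U

/-- Let `Q` be the part of `Δ` formed by the components which are not components of `V`. There are an
open subset `U` which contains the generic point of `W`, a log canonical pair `(U, Δ')`, a divisor `P`,
`0 ≤ P ≤ Δ'`, and a number `c > 0` such that `P + c Q` is `ℝ`-Cartier on `U`. -/
def Compl (Δ : X.B) (V : Finset X.Sub) (W : X.Sub) : Prop := ∃ U, X.meets U W ∧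
  ∃ (Δ' : X.LB U) (P Q : X.Val →₀ ℝ) (c : ℝ), (∀ G, X.meets U (X.cen G) → 0 ≤ X.lld U Δ' G) ∧
    (∀ G, X.div G → X.meets U (X.cen G) → 0 ≤ P G ∧ P G ≤ 1 - X.lld U Δ' G) ∧
    (∀ G, X.div G → (X.cen G ∈ V → Q G = 0) ∧ (X.cen G ∉ V → Q G = 1 - X.ld Δ G)) ∧ 0 < c ∧
    X.Cart U (P + c • Q)

theorem mld_least {Θ : X.B} (h : X.Lc Θ) (W : X.Sub) :
    ∃ G, X.cen G = W ∧ X.ld Θ G = X.mld W Θ := by
  obtain ⟨G, hG, hmin⟩ := X.attained Θ h W
  refine ⟨G, hG, ?_⟩
  have : IsLeast {x | ∃ G, X.cen G = W ∧ X.ld Θ G = x} (X.ld Θ G) :=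
    ⟨⟨G, hG, rfl⟩, by rintro x ⟨G', hG', rfl⟩; exact hmin G' hG'⟩
  exact this.csInf_eq.symm

theorem centre_iff {Θ : X.B} (h : X.Lc Θ) (W : X.Sub) :
    X.Centre Θ W ↔ ∃ G, X.cen G = W ∧ X.ld Θ G = 0 := by
  constructor
  · intro hc
    obtain ⟨G, hG, he⟩ := X.mld_least h W
    exact ⟨G, hG, he.trans hc⟩
  · rintro ⟨G, hG, h0⟩
    have : IsLeast {x | ∃ G, X.cen G = W ∧ X.ld Θ G = x} 0 :=
      ⟨⟨G, hG, h0⟩, by rintro x ⟨G', hG', rfl⟩; exact h G'⟩
    exact this.csInf_eq

open Classical in
/-- the sum of the prime divisors in a finite set -/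
noncomputable def red (S : Finset X.Val) : X.Val →₀ ℝ :=
  Finsupp.onFinset S (fun G => if G ∈ S then 1 else 0) (by intro G; simp)

theorem red_mem {S : Finset X.Val} {G : X.Val} (h : G ∈ S) : X.red S G = 1 := by
  simp [red, Finsupp.onFinset_apply, h]

theorem red_not {S : Finset X.Val} {G : X.Val} (h : G ∉ S) : X.red S G = 0 := by
  simp [red, Finsupp.onFinset_apply, h]

/-- log discrepancy of `(Y, C)` -/
noncomputable def A (Y : X.M) (C : X.Val →₀ ℝ) (G : X.Val) : ℝ := X.kd Y G - X.ord Y G C

theorem A_on {Y : X.M} {C : X.Val →₀ ℝ} {G : X.Val} (h : X.on Y G) : X.A Y C G = 1 - C G := by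
  simp [A, X.kd_on Y G h, X.ord_on Y G C h]

/-- a small multiple of a divisor -/
theorem eventually_pos (C C0 : X.Val →₀ ℝ) : ∀ᶠ s : ℝ in nhdsWithin 0 (Set.Ioi 0),
    ∀ G, 0 < C G → 0 < (1 - s) * C G + s * C0 G := by
  have hev : ∀ᶠ s : ℝ in nhdsWithin 0 (Set.Ioi 0), ∀ G ∈ C0.support,
      0 < C G → 0 < (1 - s) * C G + s * C0 G := by
    rw [Filter.eventually_all_finset]
    intro G _
    by_cases hG : 0 < C G
    · have hcont : Filter.Tendsto (fun s : ℝ => (1 - s) * C G + s * C0 G)
          (nhdsWithin 0 (Set.Ioi 0)) (nhds ((1 - 0) * C G + 0 * C0 G)) := by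
        apply Filter.Tendsto.mono_left _ nhdsWithin_le_nhds
        exact Continuous.tendsto (by fun_prop) 0
      have : (0 : ℝ) < (1 - 0) * C G + 0 * C0 G := by simpa using hG
      filter_upwards [hcont.eventually (lt_mem_nhds this)] with s hs _ using hs
    · exact Filter.Eventually.of_forall fun s hs => absurd hs hG
  have hev2 : ∀ᶠ s : ℝ in nhdsWithin 0 (Set.Ioi 0), s < 1 :=
    (Filter.Tendsto.mono_left Filter.tendsto_id nhdsWithin_le_nhds).eventually
      (gt_mem_nhds zero_lt_one)
  filter_upwards [hev, hev2] with s hs hs1 G hG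
  by_cases hz : C0 G = 0
  · rw [hz]
    have := mul_pos (by linarith : (0 : ℝ) < 1 - s) hG
    linarith
  · exact hs G (Finsupp.mem_support_iff.2 hz) hG

theorem eventually_le (C N : X.Val →₀ ℝ) : ∀ᶠ s : ℝ in nhdsWithin 0 (Set.Ioi 0),
    ∀ G, 0 < C G → s * N G ≤ C G := by
  filter_upwards [X.eventually_pos C (C - N)] with s hs G hG
  have := hs G hG
  simp only [Finsupp.coe_sub, Pi.sub_apply] at this
  nlinarith

/-- the pair `(Y, C)` is of klt Calabi-Yau type near the generic point of `W` -/
theorem good_of_potKlt {Δ : X.B} (hΔ : X.Lc Δ) {W : X.Sub} (h : X.PotKlt W) {Y : X.M}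
    {C C1 : X.Val →₀ ℝ} (hd : X.Dlt Y C1) (h0 : X.K Y + X.cl Y C = 0) (hC : ∀ G, 0 ≤ C G)
    (he : ∀ G, X.on Y G → X.div G ∨ 0 < C G) (hA : ∀ G, X.ld Δ G = X.kd Y G - X.ord Y G C) :
    ∃ U, X.meets U W ∧ X.Good Y C1 U := by
  obtain ⟨U, hU, D0, hD0⟩ := h
  obtain ⟨C0, ht, hdiv, hC0⟩ := X.pull Y U D0
  have hev2 : ∀ᶠ s : ℝ in nhdsWithin 0 (Set.Ioi 0), s < 1 :=
    (Filter.Tendsto.mono_left Filter.tendsto_id nhdsWithin_le_nhds).eventually
      (gt_mem_nhds zero_lt_one)
  obtain ⟨s, hs, hs1, hs0⟩ := ((X.eventually_pos C C0).and (hev2.and self_mem_nhdsWithin)).exists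
  have hs0 : 0 < s := hs0
  refine ⟨U, hU, X.bchm Y C1 U hd ⟨(1 - s) • C + s • C0, ?_, ?_, ?_⟩⟩
  · have e : X.K Y + X.cl Y ((1 - s) • C + s • C0) =
        (1 - s) • (X.K Y + X.cl Y C) + s • (X.K Y + X.cl Y C0) := by
      rw [map_add, map_smul, map_smul]
      module
    rw [e, h0, smul_zero, zero_add]
    exact (X.loc Y U).smul_mem s ht
  · intro G hG _
    simp only [Finsupp.coe_add, Finsupp.coe_smul, Pi.add_apply, Pi.smul_apply, smul_eq_mul]
    rcases he G hG with hv | hv
    · have h1 := mul_nonneg (by linarith : (0 : ℝ) ≤ 1 - s) (hC G)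
      have h2 := mul_nonneg hs0.le (hdiv G hv)
      linarith
    · exact (hs G hv).le
  · intro G hG
    have h1 := hC0 G hG
    have h2 := hD0 G hG
    have h3 := hΔ G
    rw [hA G] at h3
    rw [map_add, map_smul, map_smul, smul_eq_mul, smul_eq_mul]
    have e : X.kd Y G - ((1 - s) * X.ord Y G C + s * X.ord Y G C0) =
        (1 - s) * (X.kd Y G - X.ord Y G C) + s * (X.kd Y G - X.ord Y G C0) := by ring
    rw [e, h1]
    have h4 := mul_nonneg (by linarith : (0 : ℝ) ≤ 1 - s) h3
    have h5 := mul_pos hs0 h2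
    linarith

theorem compl_of_kCartAt {Δ : X.B} (hΔ : X.Lc Δ) (V : Finset X.Sub) {W : X.Sub}
    (h : X.KCartAt W) : X.Compl Δ V W := by
  classical
  obtain ⟨U, hU, hK⟩ := h
  obtain ⟨P, hP, hc⟩ := X.kcart U Δ hK
  refine ⟨U, hU, X.res U Δ, P.filter (fun G => X.cen G ∈ V), P.filter (fun G => ¬ X.cen G ∈ V), 1,
    fun G hG => ?_, fun G hG hm => ?_, fun G hG => ⟨fun hv => ?_, fun hv => ?_⟩, one_pos, ?_⟩
  · rw [X.lld_res U Δ G hG]
    exact hΔ G
  · rw [X.lld_res U Δ G hm]
    have h1 := X.ld_div Δ G hG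
    by_cases hv : X.cen G ∈ V
    · rw [Finsupp.filter_apply_pos (fun G => X.cen G ∈ V) _ hv, hP G hG]
      exact ⟨by linarith, le_rfl⟩
    · rw [Finsupp.filter_apply_neg (fun G => X.cen G ∈ V) _ hv]
      exact ⟨le_rfl, by linarith⟩
  · exact Finsupp.filter_apply_neg _ _ (not_not.2 hv)
  · rw [Finsupp.filter_apply_pos (fun G => ¬ X.cen G ∈ V) _ hv, hP G hG]
  · rw [one_smul, Finsupp.filter_add_filter_not]
    exact hc

/-- the pair `(Y, C1)` has a good minimal model near the generic point of `W` by the theorem of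
Birkar, Hacon and Xu -/
theorem good_of_compl {Δ : X.B} (hΔ : X.Lc Δ) {V : Finset X.Sub} {W : X.Sub}
    (h : X.Compl Δ V W) {Y : X.M} {C R C1 : X.Val →₀ ℝ} {t : ℝ} (ht : 0 < t) (hd : X.Dlt Y C1)
    (h0 : X.K Y + X.cl Y C = 0) (hC : ∀ G, 0 ≤ C G) (hC1 : X.K Y + X.cl Y C1 = t • X.cl Y (C - R))
    (hR : ∀ G, X.on Y G → (X.div G ∧ X.cen G ∉ V ∧ R G = 0) ∨ (0 < C G ∧ R G = 1))
    (hA : ∀ G, X.ld Δ G = X.kd Y G - X.ord Y G C) :
    ∃ U, X.meets U W ∧ X.Good Y C1 U := by
  obtain ⟨U, hU, D0, P, Q, c, hD0, hP, hQ, hc, hcart⟩ := h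
  obtain ⟨C0, hl0, hdiv, hC0⟩ := X.pull Y U D0
  obtain ⟨P0, hlP, hPd, hPe⟩ := X.pullCart Y U (P + c • Q) hcart (by
    intro G hG hm
    simp only [Finsupp.coe_add, Finsupp.coe_smul, Pi.add_apply, Pi.smul_apply, smul_eq_mul]
    have h1 := (hP G hG hm).1
    have h2 : 0 ≤ Q G := by
      by_cases hv : X.cen G ∈ V
      · rw [(hQ G hG).1 hv]
      · rw [(hQ G hG).2 hv]
        have := X.ld_div Δ G hG
        linarith
    have := mul_nonneg hc.le h2
    linarith)
  have hev2 : ∀ᶠ s : ℝ in nhdsWithin 0 (Set.Ioi 0), s < 1 :=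
    (Filter.Tendsto.mono_left Filter.tendsto_id nhdsWithin_le_nhds).eventually
      (gt_mem_nhds zero_lt_one)
  obtain ⟨s, hs, hs1, hs0⟩ := ((X.eventually_pos C C0).and (hev2.and self_mem_nhdsWithin)).exists
  have hs0 : 0 < s := hs0
  set Γ : X.Val →₀ ℝ := (1 - s) • C + s • C0 with hΓ
  set N : X.Val →₀ ℝ := P0 - c • (C - R) with hN
  have hev3 : ∀ᶠ r : ℝ in nhdsWithin 0 (Set.Ioi 0), r < s :=
    (Filter.Tendsto.mono_left Filter.tendsto_id nhdsWithin_le_nhds).eventually
      (gt_mem_nhds hs0)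
  obtain ⟨r, hr, hr1, hr0⟩ := ((X.eventually_le Γ N).and (hev3.and self_mem_nhdsWithin)).exists
  have hr0 : 0 < r := hr0
  have hΓG : ∀ G, Γ G = (1 - s) * C G + s * C0 G := fun G => by simp [hΓ]
  have hNG : ∀ G, N G = P0 G - c * (C G - R G) := fun G => by simp [hN]
  have hKΓ : X.K Y + X.cl Y Γ ∈ X.loc Y U := by
    have e : X.K Y + X.cl Y Γ = (1 - s) • (X.K Y + X.cl Y C) + s • (X.K Y + X.cl Y C0) := by
      rw [hΓ, map_add, map_smul, map_smul]
      module
    rw [e, h0, smul_zero, zero_add]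
    exact (X.loc Y U).smul_mem s hl0
  refine ⟨U, hU, X.birkar Y U (Γ - r • N) (r • N) C1 (r * c / t) hd (fun G hG hm => ?_)
    (fun G hm => ?_) ?_ (by positivity) ?_⟩
  · simp only [Finsupp.coe_sub, Finsupp.coe_smul, Pi.sub_apply, Pi.smul_apply, smul_eq_mul]
    have hld : X.ld Δ G = 1 - C G := (hA G).trans (X.A_on hG)
    have hlld : X.lld U D0 G = 1 - C0 G := (hC0 G hm).symm.trans (X.A_on hG)
    rcases hR G hG with ⟨h1, h2, h3⟩ | ⟨h1, h2⟩
    · have h4 : N G = P G := by
        rw [hNG, hPd G h1 hm, h3]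
        simp only [Finsupp.coe_add, Finsupp.coe_smul, Pi.add_apply, Pi.smul_apply, smul_eq_mul]
        rw [(hQ G h1).2 h2, hld]
        ring
      obtain ⟨h5, h6⟩ := hP G h1 hm
      rw [hlld] at h6
      rw [h4, hΓG]
      have h7 := mul_nonneg (by linarith : (0 : ℝ) ≤ 1 - s) (hC G)
      have h8 : r * P G ≤ s * P G := mul_le_mul_of_nonneg_right hr1.le h5
      have h9 : s * P G ≤ s * C0 G := mul_le_mul_of_nonneg_left (by linarith) hs0.le
      exact ⟨by linarith, mul_nonneg hr0.le h5⟩
    · have h3 : 0 < Γ G := by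
        rw [hΓG]
        exact hs G h1
      have h4 : 0 ≤ N G := by
        rw [hNG, h2]
        have h5 := hPe G hG hm
        have h6 := hΔ G
        rw [hld] at h6
        have h7 := mul_nonneg hc.le h6
        linarith
      exact ⟨by linarith [hr G h3], mul_nonneg hr0.le h4⟩
  · rw [sub_add_cancel, hΓ, map_add, map_smul, map_smul, smul_eq_mul, smul_eq_mul]
    have e : X.kd Y G - ((1 - s) * X.ord Y G C + s * X.ord Y G C0) =
        (1 - s) * (X.kd Y G - X.ord Y G C) + s * (X.kd Y G - X.ord Y G C0) := by ring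
    rw [e, hC0 G hm, ← hA G]
    have h4 := mul_nonneg (by linarith : (0 : ℝ) ≤ 1 - s) (hΔ G)
    have h5 := mul_nonneg hs0.le (hD0 G hm)
    linarith
  · rw [sub_add_cancel]
    exact hKΓ
  · have e : (X.K Y + X.cl Y (Γ - r • N)) - (r * c / t) • (X.K Y + X.cl Y C1) =
        (X.K Y + X.cl Y Γ) - r • X.cl Y P0 := by
      rw [hC1, smul_smul]
      have : r * c / t * t = r * c := by field_simp
      rw [this, hN, map_sub, map_smul, map_sub, map_smul]
      module
    rw [e]
    exact (X.loc Y U).sub_mem hKΓ ((X.loc Y U).smul_mem r hlP)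

end Over

open Over in
/-- `(X, Δ)` is log canonical, `V` is a finite set of closed subvarieties (the components of the closed
set `V`) with `mld(v, X, Δ) < lcg(n)` for all of them, and all log canonical centres of `(X, Δ)` lie in
their union. Assume that `n ≤ 4`, or that at the generic point of every log canonical centre `W` of
`(X, Δ)` of codimension at least five `K_X` is `ℝ`-Cartier, or `X` is potentially klt, or `Compl`
holds. Then there is a log canonical pair `(X, Θ)` for which all `v` are log canonical centres and all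
log canonical centres lie in the union of the `v`. -/
theorem result (n : ℕ) (X : Over n) (Δ : X.B) (hΔ : X.Lc Δ) (V : Finset X.Sub)
    (hV : ∀ v ∈ V, X.mld v Δ < X.lcg) (hc : ∀ W, X.Centre Δ W → ∃ v ∈ V, X.le W v)
    (h : n ≤ 4 ∨ ∀ W, X.Centre Δ W →
      X.codim W ≤ 4 ∨ X.KCartAt W ∨ X.PotKlt W ∨ X.Compl Δ V W) :
    ∃ Θ : X.B, X.Lc Θ ∧ (∀ v ∈ V, X.Centre Θ v) ∧ ∀ W, X.Centre Θ W → ∃ v ∈ V, X.le W v := by
  classical
  choose E hE1 hE2 using X.mld_least hΔ
  set S : Finset X.Val := V.image E with hS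
  have hSld : ∀ G ∈ S, X.ld Δ G < X.lcg := by
    intro G hG
    obtain ⟨v, hv, rfl⟩ := Finset.mem_image.1 hG
    rw [hE2]
    exact hV v hv
  obtain ⟨Y, C, hdlt, hK, hsupp, hC, hSon, hexc, hA⟩ :=
    X.model Δ hΔ S fun G hG => (hSld G hG).trans_le X.lcg_le
  have hAon : ∀ G, X.on Y G → X.ld Δ G = 1 - C G := fun G hG => (hA G).trans (X.A_on hG)
  set T : Finset X.Val := C.support.filter fun G => C G = 1 with hT
  have hTm : ∀ G, G ∈ T ↔ C G = 1 := by
    intro G
    simp only [hT, Finset.mem_filter, Finsupp.mem_support_iff]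
    constructor
    · exact fun h => h.2
    · intro h; exact ⟨by rw [h]; exact one_ne_zero, h⟩
  set R : X.Val →₀ ℝ := X.red (S ∪ T) with hR
  have hRval : ∀ G, R G = 0 ∨ R G = 1 := by
    intro G
    by_cases hG : G ∈ S ∪ T
    · exact Or.inr (X.red_mem hG)
    · exact Or.inl (X.red_not hG)
  set D : X.Val →₀ ℝ := C - R with hD
  have hCle : ∀ G, C G ≤ 1 := by
    intro G
    by_cases hG : C G = 0
    · rw [hG]; exact zero_le_one
    · have := hΔ G
      rw [hAon G (hsupp G hG)] at this
      linarith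
  have hDG : ∀ G, D G ≠ 0 → 0 < C G ∧ C G < 1 := by
    intro G hG
    have hG' : C G - R G ≠ 0 := by simpa [hD] using hG
    by_cases hm : G ∈ S ∪ T
    · rw [hR, X.red_mem hm] at hG'
      have hne : C G ≠ 1 := fun h => hG' (by rw [h]; ring)
      have hGS : G ∈ S := by
        rcases Finset.mem_union.1 hm with h | h
        · exact h
        · exact absurd ((hTm G).1 h) hne
      have h1 := hSld G hGS
      have h2 := X.lcg_le
      rw [hAon G (hSon G hGS)] at h1
      exact ⟨by linarith, lt_of_le_of_ne (hCle G) hne⟩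
    · rw [hR, X.red_not hm] at hG'
      have hne : C G ≠ 0 := by simpa using hG'
      have hne1 : C G ≠ 1 := fun h => hm (Finset.mem_union_right _ ((hTm G).2 h))
      exact ⟨lt_of_le_of_ne (hC G) hne.symm, lt_of_le_of_ne (hCle G) hne1⟩
  have hSpos : ∀ G ∈ S, 0 < C G := by
    intro G hG
    have h1 := hSld G hG
    have h2 := X.lcg_le
    rw [hAon G (hSon G hG)] at h1
    linarith
  have hpos : ∀ G, X.on Y G → X.div G ∨ 0 < C G := by
    intro G hG
    rcases hexc G hG with h1 | h1 | h1
    · exact Or.inl h1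
    · exact Or.inr (hSpos G h1)
    · exact Or.inr (by rw [h1]; exact one_pos)
  have hRon : ∀ G, X.on Y G → (X.div G ∧ X.cen G ∉ V ∧ R G = 0) ∨ (0 < C G ∧ R G = 1) := by
    intro G hG
    by_cases hm : G ∈ S ∪ T
    · refine Or.inr ⟨?_, X.red_mem hm⟩
      rcases Finset.mem_union.1 hm with h1 | h1
      · exact hSpos G h1
      · rw [(hTm G).1 h1]; exact one_pos
    · have hd : X.div G := by
        rcases hexc G hG with h1 | h1 | h1
        · exact h1
        · exact absurd (Finset.mem_union_left _ h1) hm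
        · exact absurd (Finset.mem_union_right _ ((hTm G).2 h1)) hm
      refine Or.inl ⟨hd, fun hv => hm ?_, X.red_not hm⟩
      have h1 := X.div_inj G (E (X.cen G)) hd (hE1 (X.cen G))
      rw [← h1]
      exact Finset.mem_union_left _ (Finset.mem_image_of_mem _ hv)
  obtain ⟨e, he, hpert⟩ := X.perturb Y C D hdlt hDG
  obtain ⟨hdlt1, hplace⟩ := hpert (e / 2) (by linarith) (by linarith)
  set t : ℝ := e / 2 with ht
  have ht0 : 0 < t := by rw [ht]; linarith
  set C1 : X.Val →₀ ℝ := C + t • D with hC1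
  have hKC1 : X.K Y + X.cl Y C1 = t • X.cl Y D := by
    rw [hC1, map_add, map_smul, ← add_assoc, hK, zero_add]
  have hKR : X.K Y + X.cl Y R = (-(1 / t)) • (X.K Y + X.cl Y C1) := by
    rw [hKC1, smul_smul]
    have : -(1 / t) * t = -1 := by field_simp
    rw [this, neg_one_smul]
    have hRe : R = C - D := by rw [hD]; abel
    rw [hRe, map_sub]
    have : X.K Y + (X.cl Y C - X.cl Y D) = (X.K Y + X.cl Y C) - X.cl Y D := by abel
    rw [this, hK, zero_sub]
  obtain ⟨Y', F, hdlt', hon', hF, hFpos, hsemi, hrel⟩ := X.hacon_xu Y C1 hdlt1 (by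
    rintro W ⟨G, hGW, hG0⟩
    have h0 : X.ld Δ G = 0 := (hA G).trans (hplace G hG0)
    have hcen : X.Centre Δ W := (X.centre_iff hΔ W).2 ⟨G, hGW, h0⟩
    rcases h with hn | hn
    · exact X.low Y C1 W hdlt1 ((X.codim_le W).trans hn)
    · rcases hn W hcen with h4 | hk | hpk | hco
      · exact X.low Y C1 W hdlt1 h4
      · exact X.good_of_compl hΔ (X.compl_of_kCartAt hΔ V hk) ht0 hdlt1 hK hC hKC1 hRon hA
      · exact X.good_of_potKlt hΔ hpk hdlt1 hK hC hpos hA
      · exact X.good_of_compl hΔ hco ht0 hdlt1 hK hC hKC1 hRon hA)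
  obtain ⟨-, hAC⟩ := hrel 0 C (by rw [hK, zero_smul])
  obtain ⟨hKR', hAR⟩ := hrel (-(1 / t)) R hKR
  -- the coefficients
  set s0 : Finset ℝ := insert 0 (S.image (X.ld Δ)) with hs0
  have hs0ne : s0.Nonempty := ⟨0, by simp [hs0]⟩
  set a : ℝ := s0.max' hs0ne with ha
  have ha0 : 0 ≤ a := Finset.le_max' _ _ (by simp [hs0])
  have haS : ∀ G ∈ S, X.ld Δ G ≤ a := fun G hG =>
    Finset.le_max' _ _ (Finset.mem_insert_of_mem (Finset.mem_image_of_mem _ hG))
  have hal : a < X.lcg := by
    rw [ha, Finset.max'_lt_iff]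
    intro x hx
    rcases Finset.mem_insert.1 hx with rfl | hx
    · exact X.lcg_pos
    · obtain ⟨G, hG, rfl⟩ := Finset.mem_image.1 hx
      exact hSld G hG
  have hlc : ∀ G, 0 ≤ X.kd Y' G - X.ord Y' G R := by
    refine X.gap Y' R (1 - a) hRval (by linarith) fun G => ?_
    have h1 : 0 ≤ X.ord Y' G (C - (1 - a) • R) := by
      apply X.ord_nonneg
      intro H hH
      simp only [Finsupp.coe_sub, Finsupp.coe_smul, Pi.sub_apply, Pi.smul_apply, smul_eq_mul]
      by_cases hm : H ∈ S ∪ T
      · rw [hR, X.red_mem hm]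
        rcases Finset.mem_union.1 hm with hm | hm
        · have h2 := haS H hm
          rw [hAon H (hon' H hH)] at h2
          linarith
        · rw [(hTm H).1 hm]
          linarith
      · rw [hR, X.red_not hm]
        have := hC H
        linarith
    rw [map_sub] at h1
    have h2 := hAC G
    have h3 := hΔ G
    rw [hA G] at h3
    linarith
  have hkeep : ∀ G ∈ S ∪ T, X.on Y G → X.on Y' G := by
    intro G hm hG
    by_contra hn
    have h1 := hFpos G hG hn
    have h2 := hAR G
    have h3 := hlc G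
    rw [h2, X.kd_on Y G hG, X.ord_on Y G R hG, hR, X.red_mem hm] at h3
    have h4 : 0 < 1 / t * F G := mul_pos (by positivity) h1
    linarith
  have hSon' : ∀ G ∈ S, X.on Y' G := fun G hG =>
    hkeep G (Finset.mem_union_left _ hG) (hSon G hG)
  obtain ⟨Θ, hΘ⟩ := X.bertini Y' R hRval hlc (by
    rw [hKR', ← neg_smul, neg_neg]
    exact X.semi_smul _ _ _ (by positivity) hsemi)
  have hLc : X.Lc Θ := fun G => (hΘ G).1
  refine ⟨Θ, hLc, fun v hv => ?_, fun W hW => ?_⟩
  · rw [X.centre_iff hLc]
    refine ⟨E v, hE1 v, (hΘ (E v)).2.2 ?_⟩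
    have hm : E v ∈ S := Finset.mem_image_of_mem _ hv
    have hon := hSon' _ hm
    rw [X.kd_on _ _ hon, X.ord_on _ _ _ hon, hR, X.red_mem (Finset.mem_union_left _ hm)]
    ring
  · obtain ⟨G, hGW, hG0⟩ := (X.centre_iff hLc W).1 hW
    have h1 := (hΘ G).2.1 hG0
    have h2 := X.dlt_klt Y' C1 hdlt' G
    obtain ⟨H, hH, hRH, hle⟩ := X.ord_centre Y' G R (by
      intro h0
      rw [h0] at h1
      linarith)
    rw [hGW] at hle
    have hm : H ∈ S ∪ T := by
      by_contra hm
      exact hRH (by rw [hR]; exact X.red_not hm)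
    rcases Finset.mem_union.1 hm with hm | hm
    · obtain ⟨v, hv, rfl⟩ := Finset.mem_image.1 hm
      rw [hE1] at hle
      exact ⟨v, hv, hle⟩
    · have h3 : X.ld Δ H = 0 := by
        rw [hAon H (hon' H hH), (hTm H).1 hm]; ring
      obtain ⟨v, hv, hv'⟩ := hc (X.cen H) ((X.centre_iff hΔ _).2 ⟨H, rfl, h3⟩)
      exact ⟨v, hv, X.le_trans _ _ _ hle hv'⟩

end Pool.Agent.Results.MP_bdec1e_ag.LcPairs
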